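import Pool.Agent.H336R5.PS.Defs2

set_option autoImplicit false

/-!
Task L of the project PSUM: the mean of the modulus of a Dirichlet polynomial on the imaginary
axis exists.
-/

open Filter Topology MeasureTheory

namespace Pool.Agent.H377R5.PSL

/-- trigonometric polynomials -/
def TP (f : ℝ → ℂ) : Prop := ∃ (ι : Type) (_ : Fintype ι) (c : ι → ℂ) (l : ι → ℝ),
  ∀ t, f t = ∑ j, c j * Complex.exp ((l j : ℂ) * Complex.I * (t : ℂ))

theorem TP.const (z : ℂ) : TP (fun _ => z) :=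
  ⟨Unit, inferInstance, fun _ => z, fun _ => 0, fun t => by simp⟩

theorem TP.add {f g : ℝ → ℂ} (hf : TP f) (hg : TP g) : TP (fun t => f t + g t) := by
  obtain ⟨ι, _, c, l, h⟩ := hf
  obtain ⟨κ, _, c', l', h'⟩ := hg
  refine ⟨ι ⊕ κ, inferInstance, Sum.elim c c', Sum.elim l l', fun t => ?_⟩
  show f t + g t = _
  rw [Fintype.sum_sum_type, h, h']
  rfl

theorem TP.mul {f g : ℝ → ℂ} (hf : TP f) (hg : TP g) : TP (fun t => f t * g t) := by
  obtain ⟨ι, _, c, l, h⟩ := hf
  obtain ⟨κ, _, c', l', h'⟩ := hg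
  refine ⟨ι × κ, inferInstance, fun p => c p.1 * c' p.2, fun p => l p.1 + l' p.2, fun t => ?_⟩
  show f t * g t = _
  rw [h, h', Finset.sum_mul_sum, Fintype.sum_prod_type]
  refine Finset.sum_congr rfl fun i _ => Finset.sum_congr rfl fun j _ => ?_
  have : ((l i + l' j : ℝ) : ℂ) * Complex.I * (t : ℂ) =
      (l i : ℂ) * Complex.I * (t : ℂ) + (l' j : ℂ) * Complex.I * (t : ℂ) := by
    push_cast; ring
  rw [this, Complex.exp_add]
  ring

theorem TP.conj {f : ℝ → ℂ} (hf : TP f) : TP (fun t => (starRingEnd ℂ) (f t)) := by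
  obtain ⟨ι, _, c, l, h⟩ := hf
  refine ⟨ι, inferInstance, fun j => (starRingEnd ℂ) (c j), fun j => - l j, fun t => ?_⟩
  show (starRingEnd ℂ) (f t) = _
  rw [h, map_sum]
  refine Finset.sum_congr rfl fun i _ => ?_
  rw [map_mul, ← Complex.exp_conj]
  congr 2
  simp

theorem TP.poly {f : ℝ → ℂ} (hf : TP f) (q : Polynomial ℝ) :
    TP (fun t => Polynomial.aeval (f t) q) := by
  induction q using Polynomial.induction_on' with
  | add p q hp hq =>
    have := hp.add hq
    simpa using this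
  | monomial n a =>
    have hpow : ∀ n : ℕ, TP (fun t => f t ^ n) := by
      intro n
      induction n with
      | zero => simpa using TP.const 1
      | succ n ih => simpa [pow_succ] using ih.mul hf
    have := (TP.const (a : ℂ)).mul (hpow n)
    simpa [Polynomial.aeval_monomial] using this

theorem TP.bound {f : ℝ → ℂ} (hf : TP f) : ∃ R : ℝ, 0 ≤ R ∧ ∀ t, ‖f t‖ ≤ R := by
  obtain ⟨ι, _, c, l, h⟩ := hf
  refine ⟨∑ j, ‖c j‖, Finset.sum_nonneg fun _ _ => norm_nonneg _, fun t => ?_⟩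
  rw [h]
  refine (norm_sum_le _ _).trans (Finset.sum_le_sum fun j _ => ?_)
  rw [norm_mul]
  have : ‖Complex.exp ((l j : ℂ) * Complex.I * (t : ℂ))‖ = 1 := by
    have h2 : (l j : ℂ) * Complex.I * (t : ℂ) = ((l j * t : ℝ) : ℂ) * Complex.I := by
      push_cast; ring
    rw [h2, Complex.norm_exp_ofReal_mul_I]
  rw [this, mul_one]

theorem TP.cont {f : ℝ → ℂ} (hf : TP f) : Continuous f := by
  obtain ⟨ι, _, c, l, h⟩ := hf
  have : f = fun t : ℝ => ∑ j, c j * Complex.exp ((l j : ℂ) * Complex.I * (t : ℂ)) := funext h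
  rw [this]
  fun_prop

theorem mean_exp (l : ℝ) : ∃ L : ℂ, Tendsto (fun T : ℝ => (1 / (2 * (T : ℂ))) *
    ∫ t in (-T)..T, Complex.exp ((l : ℂ) * Complex.I * (t : ℂ))) atTop (𝓝 L) := by
  by_cases hl : l = 0
  · refine ⟨1, ?_⟩
    refine tendsto_const_nhds.congr' ?_
    filter_upwards [eventually_gt_atTop (0 : ℝ)] with T hT
    have hT' : (T : ℂ) ≠ 0 := by exact_mod_cast hT.ne'
    subst hl
    simp only [Complex.ofReal_zero, zero_mul, Complex.exp_zero, intervalIntegral.integral_const,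
      sub_neg_eq_add]
    rw [Complex.real_smul]
    push_cast
    field_simp
    norm_num
  · refine ⟨0, ?_⟩
    have hc : (l : ℂ) * Complex.I ≠ 0 :=
      mul_ne_zero (by exact_mod_cast hl) Complex.I_ne_zero
    have hb : ∀ x : ℝ, ‖Complex.exp ((l : ℂ) * Complex.I * (x : ℂ))‖ = 1 := by
      intro x
      have h2 : (l : ℂ) * Complex.I * (x : ℂ) = ((l * x : ℝ) : ℂ) * Complex.I := by
        push_cast; ring
      rw [h2, Complex.norm_exp_ofReal_mul_I]
    have hlim : Tendsto (fun T : ℝ => (1 / |l|) * (1 / T)) atTop (𝓝 0) := by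
      have := (tendsto_const_nhds (x := (1 / |l| : ℝ)) (f := atTop)).mul
        (tendsto_inv_atTop_zero (𝕜 := ℝ))
      simpa using this
    refine squeeze_zero_norm' ?_ hlim
    filter_upwards [eventually_gt_atTop (0 : ℝ)] with T hT
    rw [integral_exp_mul_complex hc, norm_mul, norm_div, norm_div, norm_mul, norm_mul]
    have h1 : ‖Complex.exp ((l : ℂ) * Complex.I * (T : ℂ)) -
        Complex.exp ((l : ℂ) * Complex.I * ((-T : ℝ) : ℂ))‖ ≤ 2 := by
      refine (norm_sub_le _ _).trans ?_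
      rw [hb, hb]
      norm_num
    have h2 : ‖(T : ℂ)‖ = T := by rw [Complex.norm_real, Real.norm_of_nonneg hT.le]
    have h3 : ‖(l : ℂ)‖ = |l| := by rw [Complex.norm_real, Real.norm_eq_abs]
    have h4 : (0 : ℝ) < |l| := abs_pos.2 hl
    rw [h2, h3, Complex.norm_I, mul_one, norm_one, Complex.norm_ofNat]
    calc 1 / (2 * T) * (‖Complex.exp ((l : ℂ) * Complex.I * (T : ℂ)) -
        Complex.exp ((l : ℂ) * Complex.I * ((-T : ℝ) : ℂ))‖ / |l|)
        ≤ 1 / (2 * T) * (2 / |l|) := by gcongr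
      _ = (1 / |l|) * (1 / T) := by field_simp

theorem TP.mean {f : ℝ → ℂ} (hf : TP f) : ∃ L : ℂ, Tendsto (fun T : ℝ => (1 / (2 * (T : ℂ))) *
    ∫ t in (-T)..T, f t) atTop (𝓝 L) := by
  obtain ⟨ι, _, c, l, h⟩ := hf
  choose L hL using mean_exp
  refine ⟨∑ j, c j * L (l j), ?_⟩
  have := tendsto_finsetSum (Finset.univ : Finset ι)
    (fun j _ => (tendsto_const_nhds (x := c j) (f := atTop)).mul (hL (l j)))
  refine this.congr fun T => ?_
  have h1 : (∫ t in (-T)..T, f t) =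
      ∑ j, ∫ t in (-T)..T, c j * Complex.exp ((l j : ℂ) * Complex.I * (t : ℂ)) := by
    rw [← intervalIntegral.integral_finsetSum]
    · exact intervalIntegral.integral_congr fun t _ => h t
    · intro j _
      exact Continuous.intervalIntegrable (by fun_prop) _ _
  rw [h1, Finset.mul_sum]
  refine Finset.sum_congr rfl fun j _ => ?_
  rw [intervalIntegral.integral_const_mul]
  ring

theorem mean_norm {g : ℝ → ℂ} (hg : TP g) : ∃ L : ℝ, Tendsto (fun T : ℝ => (1 / (2 * T)) *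
    ∫ t in (-T)..T, ‖g t‖) atTop (𝓝 L) := by
  obtain ⟨R, hR, hgR⟩ := hg.bound
  rw [← cauchy_map_iff_exists_tendsto, Metric.cauchy_iff]
  refine ⟨inferInstance, fun ε hε => ?_⟩
  obtain ⟨q, hq⟩ := exists_polynomial_near_of_continuousOn 0 (R ^ 2) Real.sqrt
    Real.continuous_sqrt.continuousOn (ε / 4) (by linarith)
  -- the approximating function
  have hh : TP (fun t => ((q.eval (‖g t‖ ^ 2) : ℝ) : ℂ)) := by
    have h1 := (hg.mul hg.conj).poly q
    refine (congrArg TP (funext fun t => ?_)).mp h1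
    have h2 : g t * (starRingEnd ℂ) (g t) = ((‖g t‖ ^ 2 : ℝ) : ℂ) := by
      rw [Complex.mul_conj, Complex.normSq_eq_norm_sq]
    show Polynomial.aeval (g t * (starRingEnd ℂ) (g t)) q = _
    rw [h2]
    exact Polynomial.aeval_algebraMap_apply_eq_algebraMap_eval _ q
  obtain ⟨L, hL⟩ := hh.mean
  have hL' : Tendsto (fun T : ℝ => (1 / (2 * T)) * ∫ t in (-T)..T, q.eval (‖g t‖ ^ 2)) atTop
      (𝓝 L.re) := by
    have h1 := (Complex.continuous_re.tendsto L).comp hL
    refine h1.congr fun T => ?_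
    show ((1 / (2 * (T : ℂ))) * ∫ t in (-T)..T, ((q.eval (‖g t‖ ^ 2) : ℝ) : ℂ)).re = _
    rw [intervalIntegral.integral_ofReal]
    have : (1 / (2 * (T : ℂ))) = ((1 / (2 * T) : ℝ) : ℂ) := by push_cast; rfl
    rw [this, ← Complex.ofReal_mul, Complex.ofReal_re]
  have hclose : ∀ T : ℝ, 0 < T → |(1 / (2 * T)) * (∫ t in (-T)..T, ‖g t‖) -
      (1 / (2 * T)) * ∫ t in (-T)..T, q.eval (‖g t‖ ^ 2)| ≤ ε / 4 := by
    intro T hT
    have hgc := hg.cont
    rw [← mul_sub, ← intervalIntegral.integral_sub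
      (Continuous.intervalIntegrable (by fun_prop) _ _)
      (Continuous.intervalIntegrable (by fun_prop) _ _), abs_mul]
    have h1 : ‖∫ t in (-T)..T, (‖g t‖ - q.eval (‖g t‖ ^ 2))‖ ≤ ε / 4 * |T - -T| := by
      refine intervalIntegral.norm_integral_le_of_norm_le_const fun t _ => ?_
      have h2 := hq (‖g t‖ ^ 2) ⟨by positivity, by
        have := hgR t
        gcongr⟩
      rw [Real.sqrt_sq (norm_nonneg _)] at h2
      rw [Real.norm_eq_abs, abs_sub_comm]
      exact h2.le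
    rw [Real.norm_eq_abs] at h1
    have h3 : |T - -T| = 2 * T := by rw [sub_neg_eq_add, ← two_mul, abs_of_pos (by linarith)]
    rw [h3] at h1
    have h4 : |1 / (2 * T)| = 1 / (2 * T) := abs_of_pos (by positivity)
    rw [h4]
    calc 1 / (2 * T) * |∫ t in (-T)..T, (‖g t‖ - q.eval (‖g t‖ ^ 2))|
        ≤ 1 / (2 * T) * (ε / 4 * (2 * T)) := by gcongr
      _ = ε / 4 := by field_simp
  have hev := (Metric.tendsto_nhds.1 hL' (ε / 8) (by linarith)).and (eventually_gt_atTop (0 : ℝ))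
  refine ⟨_, image_mem_map hev, ?_⟩
  rintro _ ⟨T, ⟨hT1, hT2⟩, rfl⟩ _ ⟨S, ⟨hS1, hS2⟩, rfl⟩
  have h1 := hclose T hT2
  have h2 := hclose S hS2
  rw [Real.dist_eq] at hT1 hS1 ⊢
  rw [abs_le] at h1 h2
  rw [abs_lt] at hT1 hS1 ⊢
  constructor <;> linarith [h1.1, h1.2, h2.1, h2.2, hT1.1, hT1.2, hS1.1, hS1.2]

theorem taskL : Pool.Agent.H336R5.PS.TaskL := by
  intro a M
  refine mean_norm (g := fun t => ∑ n ∈ Finset.Icc 1 M, a n * (n : ℂ) ^ (-((t : ℂ) * Complex.I)))
    ⟨Finset.Icc 1 M, inferInstance, fun n => a n, fun n => - Real.log (n : ℕ), fun t => ?_⟩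
  show ∑ n ∈ Finset.Icc 1 M, a n * (n : ℂ) ^ (-((t : ℂ) * Complex.I)) = _
  rw [← Finset.sum_coe_sort (Finset.Icc 1 M)
    (fun n => a n * (n : ℂ) ^ (-((t : ℂ) * Complex.I)))]
  refine Finset.sum_congr rfl fun n _ => ?_
  have hn : ((n : ℕ) : ℂ) ≠ 0 := by
    have := (Finset.mem_Icc.1 n.2).1
    exact_mod_cast (by omega : (n : ℕ) ≠ 0)
  rw [Complex.cpow_def_of_ne_zero hn]
  congr 2
  rw [← Complex.ofReal_natCast, ← Complex.ofReal_log (Nat.cast_nonneg _)]
  push_cast
  ring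

end Pool.Agent.H377R5.PSL
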